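import Pool.Agent.R744.SphereEx

/-!
# MP_4617b5_gt, Q1

There is a PMC proper biharmonic immersion into a unit sphere whose shape operator `A_H` is not
parallel. The example is an immersion of `ℝ^3 × ℝ^7` onto an open part of the product of a Cartan
isoparametric hypersurface `SO(3) / (Z_2 × Z_2) ⊂ S^4(√(8/15))` (not the minimal one) and a flat
minimal torus `T^7 ⊂ S^13(√(7/15))`, in the unit sphere `S^22` of
`ℝ^23 = Mat_3(ℝ) ⊕ (ℝ^2)^7` (the image lies in the great sphere `S^18` of the symmetric matrices of
trace zero plus the torus part).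
-/

set_option autoImplicit false

namespace Pool.Agent.Results.MP_4617b5_gt.NonParallelAH

open Pool.Agent.R744.SphereImm

/-- There is a smooth immersion `φ` of `ℝ^10` into the unit sphere `S^22` of `ℝ^23` which is
biharmonic, has nowhere vanishing tension field (so it is proper biharmonic), has parallel mean
curvature vector field `H`, and whose shape operator `A_H` is not parallel, at any point. -/
theorem result : ∃ φ : (Fin 3 ⊕ Fin 7 → ℝ) →
      EuclideanSpace ℝ ((Fin 3 × Fin 3) ⊕ (Fin 7 × Fin 2)),
    IsPMCProperBiharmonic φ ∧ ∀ x, ¬ ParallelShapeHAt φ x :=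
  ⟨_, Ex.example_spec⟩

end Pool.Agent.Results.MP_4617b5_gt.NonParallelAH
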